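import Pool.Agent.Run7.h782.GS.Defs
import Pool.Agent.Run7.h32.GD.Phys
import Pool.Agent.Run7.h32.GD.Gli

/-!
From coefficients to fields for positive times (piece P6).
-/

set_option autoImplicit false

open MeasureTheory Set Filter Topology
open scoped ContDiff

namespace Pool.Agent.Run7.h308.GS

open H459R3.NS Pool.Agent.Run7.h782.GD Pool.Agent.Run7.h782.GS Pool.Agent.Run7.h32.GD
open Pool.Agent.Run7

/-- From coefficients to fields, with the explicit pressure (copy of the proof of helper32). -/
theorem phys {ν : ℝ} {a : ℝ → Cf} (h : CSol ν a) (T : ℝ) :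
    IsSol ν T (fld a) (fun t x => (S (pk a t) x).re) := by
  have hg := gs_cmp h
  have hdec : ∀ i, Dec (cmp a i) := fun i => dec_cmp h i
  have hsub : (Ico 0 T ×ˢ univ : Set (ℝ × V)) ⊆ Ici 0 ×ˢ univ :=
    prod_mono (fun t ht => ht.1) le_rfl
  refine ⟨?_, ?_, ?_, ?_, ?_, ?_⟩
  · refine contDiffOn_pi.2 fun i => ?_
    exact Complex.reCLM.contDiff.comp_contDiffOn
      ((contDiffOn_S_infty (c := cmp a i) fun n => hg n i).mono hsub)
  · exact Complex.reCLM.contDiff.comp_contDiffOn
      ((contDiffOn_S_infty (c := pk a) fun n => gd_pk h n).mono hsub)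
  · intro t ht j x
    funext i
    show (S (cmp a i t) _).re = (S (cmp a i t) _).re
    rw [per_S]
  · intro t ht j x
    show (S (pk a t) _).re = (S (pk a t) _).re
    rw [per_S]
  · intro t ht x
    have h1 : ∀ i, pd i (fun y => fld a t y i) x = (S (D i (cmp a i t)) x).re := fun i =>
      pd_reS (c := cmp a i t) (dec_const (hdec i) ht.1) x i
    simp_rw [h1]
    rw [← Complex.re_sum]
    have h2 : ∑ i, S (D i (cmp a i t)) x = 0 := by
      unfold S
      rw [← Summable.tsum_finsetSum (fun i _ =>
        summable_term (((hdec i).D i).summable ht.1) x)]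
      have : ∀ k, ∑ i, D i (cmp a i t) k * ee k x = 0 := by
        intro k
        rw [← Finset.sum_mul]
        have hd := h.div t ht.1 k
        unfold kd at hd
        have e : ∑ i, D i (cmp a i t) k = (2 * Real.pi * Complex.I) * ∑ i, (k i : ℂ) * a t k i := by
          rw [Finset.mul_sum]
          refine Finset.sum_congr rfl fun i _ => ?_
          unfold D h32.GD.cmp; ring
        rw [e, hd, mul_zero, zero_mul]
      simp_rw [this]
      exact tsum_zero
    rw [h2]; rfl
  · intro t ht x i
    have ht0 : 0 ≤ t := ht.1.le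
    -- time derivative
    have hder : ∀ k s, 0 ≤ s → HasDerivWithinAt (fun s => cmp a i s k)
        ((-(lam ν k : ℂ) • a s k - nl (a s) (a s) k) i) (Ici 0) s := fun k s hs =>
      (hasDerivWithinAt_pi.1 (h.der s hs k)) i
    obtain ⟨-, c', hc'1, hc'2⟩ := hg 1 i
    have hce : ∀ k, c' t k = (-(lam ν k : ℂ) • a t k - nl (a t) (a t) k) i := fun k =>
      (uniqueDiffOn_Ici (0 : ℝ) t ht0).eq_deriv _ (hc'1 k t ht0) (hder k t ht0)
    have hdt : deriv (fun s => fld a s x i) t = (S (c' t) x).re := by
      have h1 := hasDerivWithinAt_S (hdec i) hc'2 hc'1 ht0 x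
      have h2 : HasDerivAt (fun s => S (cmp a i s) x) (S (c' t) x) t :=
        h1.hasDerivAt (Ici_mem_nhds ht.1)
      exact (Complex.reCLM.hasFDerivAt.comp_hasDerivAt t h2).deriv
    have hpd : ∀ j y, pd j (fun y => fld a t y i) y = (S (D j (cmp a i t)) y).re := fun j y =>
      pd_reS (c := cmp a i t) (dec_const (hdec i) ht0) y j
    have hpd2 : ∀ j, pd j (pd j (fun y => fld a t y i)) x
        = (S (D j (D j (cmp a i t))) x).re := by
      intro j
      have : pd j (fun y => fld a t y i) = fun y => (S (D j (cmp a i t)) y).re := by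
        funext y; exact hpd j y
      rw [this]
      exact pd_reS (c := D j (cmp a i t)) (dec_const ((hdec i).D j) ht0) x j
    have hpp : pd i (fun y => (S (pk a t) y).re) x = (S (D i (pk a t)) x).re :=
      pd_reS (dec_const (gd_pk h 0).dec ht0) x i
    have hreal : ∀ j, S (cmp a j t) x = ((fld a t x j : ℝ) : ℂ) := fun j =>
      S_real (fun k => h.herm t ht0 k j) x
    rw [hdt, hpp]
    simp_rw [hpd, hpd2]
    have hprod : ∀ j, fld a t x j * (S (D j (cmp a i t)) x).re
        = (S (cv (cmp a j t) (D j (cmp a i t))) x).re := by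
      intro j
      rw [← S_mul ((hdec j).summable ht0) (((hdec i).D j).summable ht0), hreal j,
        Complex.re_ofReal_mul]
    simp_rw [hprod]
    rw [← Complex.re_sum, ← Complex.re_sum, ← Complex.add_re, ← Complex.re_ofReal_mul,
      ← Complex.sub_re]
    congr 1
    have s1 : Summable fun k => c' t k * ee k x := summable_term (hc'2.dec.summable ht0) x
    have s2 : ∀ j, Summable fun k => cv (cmp a j t) (D j (cmp a i t)) k * ee k x := fun j =>
      summable_term ((((hdec j).cv ((hdec i).D j))).summable ht0) x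
    have s3 : ∀ j, Summable fun k => D j (D j (cmp a i t)) k * ee k x := fun j =>
      summable_term (((((hdec i).D j)).D j).summable ht0) x
    have s4 : Summable fun k => D i (pk a t) k * ee k x :=
      summable_term (((gd_pk h 0).dec.D i).summable ht0) x
    unfold S
    rw [← Summable.tsum_finsetSum (fun j _ => s2 j), ← Summable.tsum_finsetSum (fun j _ => s3 j),
      ← s1.tsum_add (summable_sum fun j _ => s2 j), ← tsum_mul_left,
      ← ((summable_sum fun j _ => s3 j).mul_left _).tsum_sub s4]
    refine tsum_congr fun k => ?_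
    rw [hce k, Pi.sub_apply, Pi.smul_apply, smul_eq_mul, nl_apply h ht0]
    have hcv : ∑ j, cv (cmp a j t) (D j (cmp a i t)) k
        = (2 * Real.pi * Complex.I) * Nn a i t k := by
      have hsA : ∀ j, Summable fun p => cmp a j t p * cmp a i t (k - p) := fun j =>
        (hdec j).summable_cv (hdec i) ht0 k
      have hsB : ∀ j, Summable fun p => D j (cmp a j t) p * cmp a i t (k - p) := fun j =>
        ((hdec j).D j).summable_cv (hdec i) ht0 k
      have e1 : ∀ j, cv (cmp a j t) (D j (cmp a i t)) k
          = (2 * Real.pi * Complex.I * (k j : ℂ)) * cv (cmp a j t) (cmp a i t) k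
            - ∑' p, D j (cmp a j t) p * cmp a i t (k - p) := by
        intro j
        unfold cv
        rw [← tsum_mul_left, ← ((hsA j).mul_left _).tsum_sub (hsB j)]
        refine tsum_congr fun p => ?_
        unfold D
        have : ((k - p : K3) j : ℂ) = (k j : ℂ) - (p j : ℂ) := by
          rw [Pi.sub_apply]; push_cast; ring
        rw [this]; ring
      simp_rw [e1]
      rw [Finset.sum_sub_distrib, ← Summable.tsum_finsetSum (fun j _ => hsB j)]
      have e2 : ∀ p, ∑ j, D j (cmp a j t) p * cmp a i t (k - p) = 0 := by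
        intro p
        rw [← Finset.sum_mul]
        have hd := h.div t ht0 p
        unfold kd at hd
        have e : ∑ j, D j (cmp a j t) p = (2 * Real.pi * Complex.I) * ∑ j, (p j : ℂ) * a t p j := by
          rw [Finset.mul_sum]
          refine Finset.sum_congr rfl fun i _ => ?_
          unfold D h32.GD.cmp; ring
        rw [e, hd, mul_zero, zero_mul]
      simp_rw [e2]
      rw [tsum_zero, sub_zero, Nn, Finset.mul_sum]
      exact Finset.sum_congr rfl fun j _ => by ring
    rw [← Finset.sum_mul, ← Finset.sum_mul, hcv]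
    have hDD : ∑ j, D j (D j (cmp a i t)) k = -(4 * Real.pi ^ 2 * h782.GD.sq k : ℝ) * a t k i := by
      have e : ∀ j, D j (D j (cmp a i t)) k = -(4 * Real.pi ^ 2 * (k j : ℂ) ^ 2) * a t k i := by
        intro j
        unfold D h32.GD.cmp
        linear_combination (4 * (Real.pi : ℂ) ^ 2 * (k j : ℂ) ^ 2 * a t k i) * Complex.I_sq
      simp_rw [e]
      unfold h782.GD.sq
      push_cast
      rw [← Finset.sum_mul, Finset.sum_neg_distrib, Finset.mul_sum]
    rw [hDD]
    unfold D lam
    push_cast
    ring



/-- Solutions on `[0, T)` for all `T`, shifted in time and space, give a solution for positive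
times. -/
theorem oSol_of {ν : ℝ} {u : ℝ → V → V} {p : ℝ → V → ℝ} (m : V)
    (h : ∀ τ : ℝ, 0 < τ → ∃ (U : ℝ → V → V) (P : ℝ → V → ℝ), (∀ T, IsSol ν T U P) ∧
      (∀ t x, u t x = U (t - τ) (x - τ • m)) ∧ ∀ t x, p t x = P (t - τ) (x - τ • m)) :
    OSol ν u p := by
  have hmap : ∀ τ : ℝ, ContDiff ℝ ∞ (fun z : ℝ × V => ((z.1 - τ, z.2 - τ • m) : ℝ × V)) :=
    fun τ => by fun_prop
  have hnb : ∀ (t : ℝ) (x : V), 0 < t →
      (Ico 0 t ×ˢ (univ : Set V)) ∈ 𝓝 ((t - t / 2, x - (t / 2) • m) : ℝ × V) := fun t x ht =>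
    prod_mem_nhds (Ico_mem_nhds (by linarith) (by linarith)) univ_mem
  refine ⟨?_, ?_, ?_, ?_, ?_, ?_⟩
  · rintro ⟨t, x⟩ ⟨ht, -⟩
    have ht0 : (0 : ℝ) < t := ht
    obtain ⟨U, P, hs, hu, hp⟩ := h (t / 2) (by positivity)
    have e : (fun z : ℝ × V => u z.1 z.2)
        = (fun z : ℝ × V => U z.1 z.2) ∘ fun z => (z.1 - t / 2, z.2 - (t / 2) • m) := by
      funext z
      exact hu z.1 z.2
    rw [e]
    refine ContDiffAt.contDiffWithinAt ?_
    refine ContDiffAt.comp (t, x) ?_ (hmap (t / 2)).contDiffAt
    exact (hs t).smooth_u.contDiffAt (hnb t x ht0)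
  · rintro ⟨t, x⟩ ⟨ht, -⟩
    have ht0 : (0 : ℝ) < t := ht
    obtain ⟨U, P, hs, hu, hp⟩ := h (t / 2) (by positivity)
    have e : (fun z : ℝ × V => p z.1 z.2)
        = (fun z : ℝ × V => P z.1 z.2) ∘ fun z => (z.1 - t / 2, z.2 - (t / 2) • m) := by
      funext z
      exact hp z.1 z.2
    rw [e]
    refine ContDiffAt.contDiffWithinAt ?_
    refine ContDiffAt.comp (t, x) ?_ (hmap (t / 2)).contDiffAt
    exact (hs t).smooth_p.contDiffAt (hnb t x ht0)
  · intro t ht i x
    obtain ⟨U, P, hs, hu, hp⟩ := h (t / 2) (by positivity)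
    have hm : t - t / 2 ∈ Ico 0 t := ⟨by linarith, by linarith⟩
    rw [hu, hu, add_sub_right_comm, (hs t).per_u _ hm i]
  · intro t ht i x
    obtain ⟨U, P, hs, hu, hp⟩ := h (t / 2) (by positivity)
    have hm : t - t / 2 ∈ Ico 0 t := ⟨by linarith, by linarith⟩
    rw [hp, hp, add_sub_right_comm, (hs t).per_p _ hm i]
  · intro t ht x
    obtain ⟨U, P, hs, hu, hp⟩ := h (t / 2) (by positivity)
    have hm : t - t / 2 ∈ Ico 0 t := ⟨by linarith, by linarith⟩
    have e : ∀ i, pd i (fun y => u t y i) x
        = pd i (fun y => U (t - t / 2) y i) (x - (t / 2) • m) := by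
      intro i
      have : (fun y => u t y i) = fun y => (fun y => U (t - t / 2) y i) (y - (t / 2) • m) := by
        funext y
        exact congrFun (hu t y) i
      rw [this]
      exact pd_shift (fun y => U (t - t / 2) y i) _ _ _
    simp_rw [e]
    exact (hs t).divfree _ hm _
  · intro t ht x i
    obtain ⟨U, P, hs, hu, hp⟩ := h (t / 2) (by positivity)
    have hm : t - t / 2 ∈ Ioo 0 t := ⟨by linarith, by linarith⟩
    have hmom := (hs t).momentum _ hm (x - (t / 2) • m) i
    have e1 : ∀ i, (fun y => u t y i)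
        = fun y => (fun y => U (t - t / 2) y i) (y - (t / 2) • m) := fun i => by
      funext y
      exact congrFun (hu t y) i
    have e2 : ∀ i j y, pd j (fun y => u t y i) y
        = pd j (fun y => U (t - t / 2) y i) (y - (t / 2) • m) := fun i j y => by
      rw [e1 i]
      exact pd_shift (fun y => U (t - t / 2) y i) _ _ _
    have e3 : ∀ j, pd j (pd j (fun y => u t y i)) x
        = pd j (pd j (fun y => U (t - t / 2) y i)) (x - (t / 2) • m) := fun j => by
      have : pd j (fun y => u t y i)
          = fun z => pd j (fun y => U (t - t / 2) y i) (z - (t / 2) • m) :=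
        funext fun z => e2 i j z
      rw [this]
      exact pd_shift (pd j (fun y => U (t - t / 2) y i)) _ _ _
    have e4 : pd i (p t) x = pd i (P (t - t / 2)) (x - (t / 2) • m) := by
      have : p t = fun y => P (t - t / 2) (y - (t / 2) • m) := funext fun y => hp t y
      rw [this]
      exact pd_shift _ _ _ _
    have e5 : deriv (fun s => u s x i) t
        = deriv (fun s => U s (x - (t / 2) • m) i) (t - t / 2) := by
      have : (fun s => u s x i) = fun s => (fun s => U s (x - (t / 2) • m) i) (s - t / 2) := by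
        funext s
        exact congrFun (hu s x) i
      rw [this]
      exact deriv_comp_sub_const (f := fun s => U s (x - (t / 2) • m) i) (t / 2) t
    rw [e5, e4]
    simp_rw [e2, e3]
    have e6 : ∀ j, u t x j = U (t - t / 2) (x - (t / 2) • m) j := fun j => congrFun (hu t x) j
    simp_rw [e6]
    exact hmom

/-- **Piece P6.** -/
theorem stmPhys2 : StmPhys2 := by
  intro ν b hb m
  refine ⟨fun t x => (S (pk b t) (x - t • m)).re, ?_⟩
  refine oSol_of m fun τ hτ => ?_
  have h1 := hb τ hτ
  refine ⟨fun t x => m + fld (fun t => b (t + τ)) t (x - t • m),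
    fun t x => (S (pk (fun t => b (t + τ)) t) (x - t • m)).re,
    fun T => galilei (phys h1 T) m, fun t x => ?_, fun t x => ?_⟩
  · have e1 : x - τ • m - (t - τ) • m = x - t • m := by
      rw [sub_smul]
      abel
    have e2 : fld (fun t => b (t + τ)) (t - τ) = fld b t := by
      funext y i
      simp only [fld, sub_add_cancel]
    simp only [e1, e2]
  · have e1 : x - τ • m - (t - τ) • m = x - t • m := by
      rw [sub_smul]
      abel
    have e2 : pk (fun t => b (t + τ)) (t - τ) = pk b t := by
      funext k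
      have h2 : ∀ j, h32.GD.cmp (fun t => b (t + τ)) j (t - τ) = h32.GD.cmp b j t := by
        intro j
        funext l
        simp only [h32.GD.cmp, sub_add_cancel]
      simp only [pk, h2]
    simp only [e1, e2]

end Pool.Agent.Run7.h308.GS
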