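import Pool.Agent.Run7.h782.GS.Step3
import Pool.Agent.Run7.h969.GG.Defs

/-!
Piece Q4: the step with waves bounded in the sum norm of order `-1`.
-/

set_option autoImplicit false

open MeasureTheory Set Filter Topology
open scoped ContDiff ComplexConjugate NNReal

namespace Pool.Agent.Run7.h308.GS

open H459R3.NS Pool.Agent.Run7.h782.GD Pool.Agent.Run7.h782.GS
open Pool.Agent.Run7 Pool.Agent.Run7.h969.GG

/-- **Piece Q4.** -/
theorem stepX (hT1 : StmT1) (hApp : StmApp3) (hInt : StmInt) (hProp : StmProp) : StmStepX := by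
  classical
  obtain ⟨C₁, hC₁, T1⟩ := hT1
  obtain ⟨C₀, hC₀, App⟩ := hApp
  obtain ⟨c, hc, Int⟩ := hInt
  obtain ⟨C₂, hC₂, Pr⟩ := hProp
  refine ⟨C₀, hC₀, ?_⟩
  intro ν hν U hU Z z hZ0 hzs hzh hzd ε hε R
  have hpi := Real.pi_pos
  have hUL : LSol ν U := hU.toLSol
  have hUM : Maj U := hUL.maj
  have hUc : Cnt U := hUL.cnt
  obtain ⟨M₀, M₁, hM₀, hM₁, hN0U, hN1U⟩ := hU.bounds
  -- the difference of the data
  have hzl : L1 z := L1.of_supp hzs
  have hU0l : L1 (U 0) := hUM.l1 le_rfl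
  set y : Cf := z - U 0 with hy
  have hyl : L1 y := hzl.sub hU0l
  have hz0 : z 0 = 0 := hzs 0 hZ0
  have hy0 : y 0 = 0 := by rw [hy, Pi.sub_apply, hz0, hUL.zero 0 le_rfl, sub_zero]
  set Γ : ℝ := Nm y with hΓ
  have hΓ0 : 0 ≤ Γ := Nm_nonneg y
  -- parameters
  set K' : ℝ := C₀ * Γ + 1 with hK'
  have hK'0 : 0 < K' := by positivity
  set K : ℝ := 2 * K' + 2 * (M₀ * M₁) with hK
  set X : ℝ := Real.exp (C₁ * K / ν) with hX
  have hX0 : 0 < X := Real.exp_pos _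
  set MP : ℝ := (6 + 4 * (M₀ * M₁)) / ν + (2 + 2 * M₁) with hMP
  set κ : ℝ := ε * Real.exp (-(C₂ * MP)) / 3 with hκ
  have hκ0 : 0 < κ := by positivity
  obtain ⟨e₁, he0, he1, he2, he3, he4, he5, he7⟩ : ∃ e₁ : ℝ, 0 < e₁ ∧ e₁ ≤ ν ∧ e₁ ≤ c * ν / 3 ∧
      e₁ ≤ ε / 4 ∧ e₁ ≤ 1 ∧ e₁ ≤ κ * ν * ε / 2 ∧ e₁ ≤ ε / 4 * (C₁ * X) :=
    ⟨min (min (min ν (c * ν / 3)) (min (ε / 4) 1)) (min (κ * ν * ε / 2) (ε / 4 * (C₁ * X))),
      by positivity,
      (min_le_left _ _).trans ((min_le_left _ _).trans (min_le_left _ _)),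
      (min_le_left _ _).trans ((min_le_left _ _).trans (min_le_right _ _)),
      (min_le_left _ _).trans ((min_le_right _ _).trans (min_le_left _ _)),
      (min_le_left _ _).trans ((min_le_right _ _).trans (min_le_right _ _)),
      (min_le_right _ _).trans (min_le_left _ _), (min_le_right _ _).trans (min_le_right _ _)⟩
  have he6 : e₁ / ν ≤ 1 := (div_le_one hν).2 he1
  set η : ℝ := e₁ / (C₁ * X) with hη
  have hη0 : 0 < η := by positivity
  have hηε : η ≤ ε / 4 := (div_le_iff₀ (by positivity)).2 he7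
  obtain ⟨D, hD⟩ : ∃ D : ℝ, ∀ r ∈ Icc 0 ε, N1 (U r) ≤ D := by
    obtain ⟨D, hD⟩ := (isCompact_Icc.bddAbove_image
      (hUL.contN1.mono (Icc_subset_Ici_self : Icc 0 ε ⊆ Ici 0)))
    exact ⟨D, fun r hr => hD ⟨r, hr, rfl⟩⟩
  have ev : ∀ (C ε' : ℝ), 0 < ε' → ∀ᶠ L : ℝ in atTop, L⁻¹ * C ≤ ε' := fun C ε' h => by
    have h1 : Tendsto (fun L : ℝ => L⁻¹ * C) atTop (𝓝 (0 * C)) :=
      tendsto_inv_atTop_zero.mul_const C
    rw [zero_mul] at h1
    exact h1.eventually_le_const h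
  obtain ⟨L, ⟨⟨⟨⟨⟨hL1, hL2⟩, hL3⟩, hL4⟩, hL5⟩, hL6⟩⟩ :=
    ((((((eventually_gt_atTop (0 : ℝ)).and (eventually_ge_atTop (∑ k ∈ Z, len k))).and
      (ev (96 * Real.pi * (M₀ * M₁)) (η / 3) (by positivity))).and
      (ev M₀ (ε / 2) (by positivity))).and (ev D κ hκ0)).and
      (ev (M₀ * M₁) (1 / 3) (by norm_num))).exists
  have hLi : 0 < L⁻¹ := inv_pos.2 hL1
  have hZL : ∀ k ∈ Z, k ∈ bl L := fun k hk => mem_bl.2
    ⟨fun h => hZ0 (h ▸ hk), (Finset.single_le_sum (f := fun k => len k)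
      (fun k _ => len_nonneg k) hk).trans hL2⟩
  set θ : ℝ := η / (144 * Real.pi * (M₀ + 1)) with hθ
  have hθ0 : 0 < θ := by positivity
  obtain ⟨δ, hδ0, hδ1, hδ2, hδ3, hδ4, hδ5, hδ6⟩ : ∃ δ : ℝ, 0 < δ ∧ δ ≤ ε / 2 ∧ δ ≤ κ ∧
      δ ≤ c * ν / 3 ∧ δ ≤ 1 ∧ δ ≤ θ / 2 ∧ δ ≤ θ ^ 2 / (4 * K') :=
    ⟨min (min (min (ε / 2) κ) (min (c * ν / 3) 1)) (min (θ / 2) (θ ^ 2 / (4 * K'))),
      by positivity,
      (min_le_left _ _).trans ((min_le_left _ _).trans (min_le_left _ _)),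
      (min_le_left _ _).trans ((min_le_left _ _).trans (min_le_right _ _)),
      (min_le_left _ _).trans ((min_le_right _ _).trans (min_le_left _ _)),
      (min_le_left _ _).trans ((min_le_right _ _).trans (min_le_right _ _)),
      (min_le_right _ _).trans (min_le_left _ _),
      (min_le_right _ _).trans (min_le_right _ _)⟩
  -- the datum of the waves
  set z' : Cf := tr L y with hz'
  have hz'1 : ∀ k ∉ bl L, z' k = 0 := fun k hk => tr_not hk
  have hz'2 : Herm z' := herm_tr (hzh.sub (hUL.herm 0 le_rfl)) L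
  have hz'3 : Dv z' := dv_tr (hzd.sub (hUL.div 0 le_rfl)) L
  have hz'4 : ∀ k, z' k + tr L (U 0) k = z k := by
    intro k
    by_cases hk : k ∈ bl L
    · rw [hz', tr_mem hk, tr_mem hk, hy, Pi.sub_apply, sub_add_cancel]
    · rw [hz', tr_not hk, tr_not hk, add_zero]
      exact (hzs k fun h => hk (hZL k h)).symm
  obtain ⟨B, v, F, g, w, A, hg, hFg, hgi, hvK, hv0, hwB, hwR, hwX, hvX, hvd⟩ :=
    App ν hν (bl L) z' (zero_bl L) hz'1 hz'2 hz'3 δ hδ0 R (η / 3) (by positivity)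
  have hΓ' : ∑ k ∈ bl L, ‖z' k‖ / len k ≤ Γ := by
    refine le_trans (Finset.sum_le_sum fun k _ => ?_) (sum_div_le_Nm hyl (bl L))
    exact div_le_div_of_nonneg_right (norm_tr_le L y k) (len_nonneg k)
  have hvK' : ∀ T, 0 ≤ T → ∫ t in (0 : ℝ)..T, (∑ k ∈ B, ‖v t k‖) ^ 2 ≤ K' := fun T hT =>
    (hvK T hT).trans (by
      rw [hK']
      have := mul_le_mul_of_nonneg_left hΓ' hC₀.le
      linarith)
  have hBc := contB A
  have hBi : ∀ T, 0 ≤ T → ∫ t in (0 : ℝ)..T, ∑ k ∈ B, ‖v t k‖ ≤ θ := fun T hT =>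
    int_B_le A hδ0 hK'0 hθ0 hδ5 hδ6 hvK' hvd hT
  -- the residual
  have A2 := appr_t (L := L) (U := U) A hUL
  set G : ℝ → ℝ := fun t => ∑ k ∈ Bt B L, ‖Ft L U v F (max t 0) k‖ / len k with hG
  have hGc : Continuous G := by
    refine continuous_finsetSum _ fun k _ => Continuous.div_const ?_ _
    exact ((A2.contF k).comp_continuous (continuous_id.max continuous_const)
      fun t => (le_max_right t 0 : (0 : ℝ) ≤ max t 0)).norm
  have hGe : ∀ t, 0 ≤ t → G t = ∑ k ∈ Bt B L, ‖Ft L U v F t k‖ / len k := fun t ht => by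
    simp only [hG, max_eq_left ht]
  have hGle : ∀ t, 0 ≤ t → G t ≤ g t + 48 * Real.pi * M₀ * (∑ k ∈ B, ‖v t k‖)
      + 96 * Real.pi * L⁻¹ * M₀ * N1 (U t) := by
    intro t ht
    rw [hGe t ht]
    refine (Ft_le A hUL hL1 ht).trans ?_
    have h1 := hN0U t ht
    have h2 : 0 ≤ ∑ k ∈ B, ‖v t k‖ := Finset.sum_nonneg fun k _ => norm_nonneg _
    have h3 := N1_nonneg (U t)
    rw [N0_supp A]
    have h4 : 48 * Real.pi * ((∑ k ∈ B, ‖v t k‖) * N0 (U t))
        ≤ 48 * Real.pi * ((∑ k ∈ B, ‖v t k‖) * M₀) :=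
      mul_le_mul_of_nonneg_left (mul_le_mul_of_nonneg_left h1 h2) (by positivity)
    have h5 : 96 * Real.pi * L⁻¹ * (N1 (U t) * N0 (U t)) ≤ 96 * Real.pi * L⁻¹ * (N1 (U t) * M₀) :=
      mul_le_mul_of_nonneg_left (mul_le_mul_of_nonneg_left h1 h3) (by positivity)
    have h6 := hFg t ht
    calc _ ≤ g t + 48 * Real.pi * ((∑ k ∈ B, ‖v t k‖) * M₀)
          + 96 * Real.pi * L⁻¹ * (N1 (U t) * M₀) := add_le_add (add_le_add h6 h4) h5
      _ = _ := by ring
  have hGi : ∀ T, 0 ≤ T → ∫ t in (0 : ℝ)..T, G t ≤ η := by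
    intro T hT
    have i1 := ii hg.continuousOn le_rfl hT
    have i2 := ii hBc le_rfl hT
    have i3 := ii hUL.contN1 le_rfl hT
    have h1 : ∫ t in (0 : ℝ)..T, G t ≤ ∫ t in (0 : ℝ)..T, (g t
        + 48 * Real.pi * M₀ * (∑ k ∈ B, ‖v t k‖) + 96 * Real.pi * L⁻¹ * M₀ * N1 (U t)) :=
      intervalIntegral.integral_mono_on hT (hGc.intervalIntegrable _ _)
        ((i1.add (i2.const_mul _)).add (i3.const_mul _)) fun t ht => hGle t ht.1
    rw [intervalIntegral.integral_add (i1.add (i2.const_mul _)) (i3.const_mul _),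
      intervalIntegral.integral_add i1 (i2.const_mul _), intervalIntegral.integral_const_mul,
      intervalIntegral.integral_const_mul] at h1
    have h2 := hgi T hT
    have h3 : 48 * Real.pi * M₀ * (∫ t in (0 : ℝ)..T, ∑ k ∈ B, ‖v t k‖) ≤ η / 3 := by
      calc _ ≤ 48 * Real.pi * M₀ * θ := mul_le_mul_of_nonneg_left (hBi T hT) (by positivity)
        _ ≤ 48 * Real.pi * (M₀ + 1) * θ := by
            refine mul_le_mul_of_nonneg_right ?_ hθ0.le
            refine mul_le_mul_of_nonneg_left ?_ (by positivity)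
            linarith
        _ = η / 3 := by
            rw [hθ]
            field_simp
            norm_num
    have h4 : 96 * Real.pi * L⁻¹ * M₀ * (∫ t in (0 : ℝ)..T, N1 (U t)) ≤ η / 3 := by
      calc _ ≤ 96 * Real.pi * L⁻¹ * M₀ * M₁ :=
            mul_le_mul_of_nonneg_left (hN1U 0 T le_rfl hT) (by positivity)
        _ = L⁻¹ * (96 * Real.pi * (M₀ * M₁)) := by ring
        _ ≤ η / 3 := hL3
    linarith
  -- squares of the truncated target
  have hN0sq : ∀ t, 0 ≤ t → N0 (U t) ^ 2 ≤ M₀ * N1 (U t) := by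
    intro t ht
    have h1 := N0_le_N1 (hUL.zero t ht) (hUM.l1 ht) (hUM.sum wt_len ht)
    have h2 := hN0U t ht
    have h3 := N0_nonneg (U t)
    have h4 := N1_nonneg (U t)
    nlinarith
  have hKi : ∀ T, 0 ≤ T → ∫ t in (0 : ℝ)..T, (∑ k ∈ Bt B L, ‖vt L U v t k‖) ^ 2 ≤ K := by
    intro T hT
    have i2 : IntervalIntegrable (fun t => (∑ k ∈ B, ‖v t k‖) ^ 2) volume 0 T :=
      ii (hBc.pow 2) le_rfl hT
    have i3 := ii hUL.contN1 le_rfl hT
    have hcv : ContinuousOn (fun t => (∑ k ∈ Bt B L, ‖vt L U v t k‖) ^ 2) (Ici 0) :=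
      (continuousOn_finsetSum _ fun k _ => (vt_cnt A hUL k).norm).pow 2
    have h1 : ∫ t in (0 : ℝ)..T, (∑ k ∈ Bt B L, ‖vt L U v t k‖) ^ 2
        ≤ ∫ t in (0 : ℝ)..T, (2 * (∑ k ∈ B, ‖v t k‖) ^ 2 + 2 * M₀ * N1 (U t)) := by
      refine intervalIntegral.integral_mono_on hT (ii hcv le_rfl hT)
        ((i2.const_mul _).add (i3.const_mul _)) fun t ht => ?_
      have h2 : ∑ k ∈ Bt B L, ‖vt L U v t k‖ ≤ (∑ k ∈ B, ‖v t k‖) + N0 (U t) := by
        calc ∑ k ∈ Bt B L, ‖vt L U v t k‖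
            ≤ ∑ k ∈ Bt B L, (‖v t k‖ + ‖U t k‖) := Finset.sum_le_sum fun k _ =>
              (norm_add_le _ _).trans (add_le_add le_rfl (norm_tr_le L (U t) k))
          _ = ∑ k ∈ Bt B L, ‖v t k‖ + ∑ k ∈ Bt B L, ‖U t k‖ := Finset.sum_add_distrib
          _ ≤ _ := add_le_add (sum_supp_le' A t _) (sum_le_N0 (hUM.l1 ht.1) _)
      have h3 : (∑ k ∈ Bt B L, ‖vt L U v t k‖) ^ 2 ≤ ((∑ k ∈ B, ‖v t k‖) + N0 (U t)) ^ 2 :=
        pow_le_pow_left₀ (Finset.sum_nonneg fun k _ => norm_nonneg _) h2 2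
      have h4 := hN0sq t ht.1
      nlinarith [sq_nonneg ((∑ k ∈ B, ‖v t k‖) - N0 (U t))]
    rw [intervalIntegral.integral_add (i2.const_mul _) (i3.const_mul _),
      intervalIntegral.integral_const_mul, intervalIntegral.integral_const_mul] at h1
    have h5 := hvK' T hT
    have h6 : 2 * M₀ * (∫ t in (0 : ℝ)..T, N1 (U t)) ≤ 2 * M₀ * M₁ :=
      mul_le_mul_of_nonneg_left (hN1U 0 T le_rfl hT) (by positivity)
    rw [hK]
    linarith
  -- the solution
  have hE : C₁ * η * Real.exp (C₁ * K / ν) = e₁ := by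
    rw [← hX, hη]
    field_simp
  obtain ⟨a, ha, ha0, hcl, hint⟩ := T1 ν hν (Bt B L) (vt L U v) (Ft L U v F) G K η A2 hGc
    (fun t ht => le_of_eq (hGe t ht).symm) hGi hKi (by rw [hE]; exact he1)
  rw [hE] at hcl hint
  have haM : Maj a := ha.maj
  have haL : LSol ν a := ha.lsol
  have hac : Cnt a := haL.cnt
  have hvM : Maj v := apprv_maj A
  set d : ℝ → Cf := fun t => a t - vt L U v t with hd
  have hdM : Maj d := haM.sub (vt_maj A hUL)
  have hdc : Cnt d := hac.sub (vt_cnt A hUL)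
  have hd0 : ∀ t, 0 ≤ t → d t 0 = 0 := fun t ht => by
    show a t 0 - vt L U v t 0 = 0
    rw [ha.zero t ht, A2.suppv t 0 A2.zero, sub_zero]
  have hdm : ∀ t, 0 ≤ t → Nm (d t) ≤ e₁ := fun t ht => Nm_le_of_sum (hcl t ht)
  have hd1 : ∀ s t, 0 ≤ s → s ≤ t → ∫ r in s..t, N1 (d r) ≤ e₁ / ν := by
    intro s t hs hst
    have h2 : ∫ r in (0 : ℝ)..t, N1 (d r) ≤ e₁ / ν :=
      int_W_le hdM hdc wt_len le_rfl (hs.trans hst) (hint t (hs.trans hst))
    have hdc1 : ContinuousOn (fun t => N1 (d t)) (Ici 0) := hdM.cont hdc wt_len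
    have h3 := intervalIntegral.integral_add_adjacent_intervals (ii hdc1 le_rfl hs)
      (ii hdc1 hs hst)
    have h4 : 0 ≤ ∫ r in (0 : ℝ)..s, N1 (d r) :=
      intervalIntegral.integral_nonneg hs fun r _ => N1_nonneg _
    linarith
  have hdc1 : ContinuousOn (fun t => N1 (d t)) (Ici 0) := hdM.cont hdc wt_len
  have hdsq : ∀ t, 0 ≤ t → N0 (d t) ^ 2 ≤ e₁ * N1 (d t) := fun t ht =>
    (N0_sq_le (hd0 t ht) (hdM.l1 ht) (hdM.sum wt_len ht)).trans
      (mul_le_mul_of_nonneg_right (hdm t ht) (N1_nonneg _))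
  have hdiff : ∀ t k, a t k - U t k = d t k + v t k - (U t - tr L (U t)) k := by
    intro t k
    show a t k - U t k = (a t k - (v t k + tr L (U t) k)) + v t k - (U t k - tr L (U t) k)
    abel
  have hdle : ∀ t k, ‖a t k - U t k‖ ≤ ‖d t k‖ + ‖v t k‖ + ‖(U t - tr L (U t)) k‖ := by
    intro t k
    rw [hdiff]
    exact (norm_sub_le _ _).trans (add_le_add (norm_add_le _ _) le_rfl)
  have hsum : ∀ t, 0 ≤ t → ∀ A' : Finset K3, ∑ k ∈ A', ‖a t k - U t k‖
      ≤ N0 (d t) + (∑ k ∈ B, ‖v t k‖) + N0 (U t - tr L (U t)) := by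
    intro t ht A'
    calc ∑ k ∈ A', ‖a t k - U t k‖
        ≤ ∑ k ∈ A', (‖d t k‖ + ‖v t k‖ + ‖(U t - tr L (U t)) k‖) :=
          Finset.sum_le_sum fun k _ => hdle t k
      _ = ∑ k ∈ A', ‖d t k‖ + ∑ k ∈ A', ‖v t k‖ + ∑ k ∈ A', ‖(U t - tr L (U t)) k‖ := by
          rw [Finset.sum_add_distrib, Finset.sum_add_distrib]
      _ ≤ _ := add_le_add (add_le_add (sum_le_N0 (hdM.l1 ht) A') (sum_supp_le' A t A'))
          (sum_le_N0 ((hUM.l1 ht).sub (l1_tr L (U t))) A')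
  have hUsub : ∀ t, 0 ≤ t → N0 (U t - tr L (U t)) ≤ L⁻¹ * N1 (U t) := fun t ht =>
    N0_sub_tr_le (hUL.zero t ht) (hUM.l1 ht) (hUM.sum wt_len ht) hL1
  have hUsub2 : ∀ t, 0 ≤ t → N0 (U t - tr L (U t)) ^ 2 ≤ M₀ * (L⁻¹ * N1 (U t)) := by
    intro t ht
    have h1 := hUsub t ht
    have h2 := (N0_sub_tr_le' (hUM.l1 ht) L).trans (hN0U t ht)
    have h3 := N0_nonneg (U t - tr L (U t))
    calc N0 (U t - tr L (U t)) ^ 2 = N0 (U t - tr L (U t)) * N0 (U t - tr L (U t)) := sq _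
      _ ≤ M₀ * (L⁻¹ * N1 (U t)) := mul_le_mul h2 h1 h3 hM₀
  have hadle : ∀ t, 0 ≤ t → ∀ (w' : K3 → ℝ), (∀ k, 0 ≤ w' k) → ∀ A' : Finset K3,
      ∑ k ∈ A', w' k * ‖a t k‖ ≤ ∑ k ∈ A', w' k * ‖d t k‖ + ∑ k ∈ B, w' k * ‖v t k‖
        + ∑ k ∈ A', w' k * ‖U t k‖ := by
    intro t _ w' hw' A'
    have h1 : ∀ k, ‖a t k‖ ≤ ‖d t k‖ + ‖v t k‖ + ‖U t k‖ := by
      intro k
      have e : a t k = d t k + v t k + tr L (U t) k := by
        show a t k = (a t k - (v t k + tr L (U t) k)) + v t k + tr L (U t) k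
        abel
      calc ‖a t k‖ = ‖d t k + v t k + tr L (U t) k‖ := by rw [← e]
        _ ≤ ‖d t k‖ + ‖v t k‖ + ‖tr L (U t) k‖ :=
            (norm_add_le _ _).trans (add_le_add (norm_add_le _ _) le_rfl)
        _ ≤ _ := add_le_add le_rfl (norm_tr_le L (U t) k)
    calc ∑ k ∈ A', w' k * ‖a t k‖ ≤ ∑ k ∈ A', w' k * (‖d t k‖ + ‖v t k‖ + ‖U t k‖) :=
          Finset.sum_le_sum fun k _ => mul_le_mul_of_nonneg_left (h1 k) (hw' k)
      _ = ∑ k ∈ A', w' k * ‖d t k‖ + ∑ k ∈ A', w' k * ‖v t k‖ + ∑ k ∈ A', w' k * ‖U t k‖ := by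
          rw [← Finset.sum_add_distrib, ← Finset.sum_add_distrib]
          exact Finset.sum_congr rfl fun k _ => by ring
      _ ≤ _ := add_le_add (add_le_add le_rfl (sum_supp_le A hw' t A')) le_rfl
  have hexp1 : ∀ t : ℝ, 0 ≤ t → Real.exp (-t) ≤ 1 := fun t ht => Real.exp_le_one_iff.2 (by linarith)
  have hΓe : ∑' k, ‖z k - U 0 k‖ / len k = Γ := by
    rw [hΓ, Nm_eq]
    rfl
  have hsq : C₀ * Real.sqrt (ν * ∑ k ∈ bl L, ‖z' k‖ / len k) ≤ C₀ * Real.sqrt (ν * Γ) :=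
    mul_le_mul_of_nonneg_left
      (Real.sqrt_le_sqrt (mul_le_mul_of_nonneg_left hΓ' hν.le)) hC₀.le
  refine ⟨B, w, a, ha, ?_, ?_, hwB, hwR, ?_, ?_, ?_⟩
  · -- `a` is a target
    refine Int ν hν a haL ?_
    obtain ⟨s, hs, hsm⟩ := hU.ev (c * ν / 3) (by positivity)
    refine ⟨max s δ, hs.trans (le_max_left _ _), fun t ht A' => ?_⟩
    have hts : s ≤ t := (le_max_left _ _).trans ht
    have htδ : δ ≤ t := (le_max_right _ _).trans ht
    have ht0 : 0 ≤ t := hs.trans hts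
    have h1 := hadle t ht0 (fun k => (len k)⁻¹) (fun k => inv_nonneg.2 (len_nonneg k)) A'
    simp only [← div_eq_inv_mul] at h1
    have h2 : ∑ k ∈ A', ‖d t k‖ / len k ≤ e₁ := hcl t ht0 A'
    have h3 : ∑ k ∈ B, ‖v t k‖ / len k ≤ δ := by
      refine (Finset.sum_le_sum fun k _ => div_le_len k (v t k)).trans ((hvd t htδ).trans ?_)
      exact mul_le_of_le_one_right hδ0.le (hexp1 t ht0)
    have h4 := hsm t hts A'
    linarith
  · intro k
    rw [ha0]
    show v 0 k + tr L (U 0) k = z k + w k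
    rw [hv0, add_right_comm, hz'4]
  · rw [hΓe]
    exact hwX.trans hsq
  · -- closeness at all times in the sum norm of order `-1`
    intro t ht0 A'
    rw [hΓe]
    have h1 : ∑ k ∈ A', ‖d t k‖ / len k ≤ e₁ := hcl t ht0 A'
    have h2 : ∑ k ∈ A', ‖v t k‖ / len k
        ≤ C₀ * Γ + C₀ * Real.sqrt (ν * Γ) + η / 3 := by
      have q1 : ∑ k ∈ A', (len k)⁻¹ * ‖v t k‖ ≤ ∑ k ∈ B, (len k)⁻¹ * ‖v t k‖ :=
        sum_supp_le A (fun k => inv_nonneg.2 (len_nonneg k)) t A'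
      simp only [← div_eq_inv_mul] at q1
      have q2 := hvX t ht0
      have q3 := mul_le_mul_of_nonneg_left hΓ' hC₀.le
      linarith
    have h3 : ∑ k ∈ A', ‖(U t - tr L (U t)) k‖ / len k ≤ ε / 2 :=
      (sum_div_le_Nm ((hUM.l1 ht0).sub (l1_tr L (U t))) A').trans
        ((Nm_sub_tr_le (hUM.l1 ht0) hL1).trans
          ((mul_le_mul_of_nonneg_left (hN0U t ht0) hLi.le).trans hL4))
    calc ∑ k ∈ A', ‖a t k - U t k‖ / len k
        ≤ ∑ k ∈ A', (‖d t k‖ / len k + ‖v t k‖ / len k + ‖(U t - tr L (U t)) k‖ / len k) :=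
          Finset.sum_le_sum fun k _ => by
            rw [← add_div, ← add_div]
            exact div_le_div_of_nonneg_right (hdle t k) (len_nonneg k)
      _ = ∑ k ∈ A', ‖d t k‖ / len k + ∑ k ∈ A', ‖v t k‖ / len k
          + ∑ k ∈ A', ‖(U t - tr L (U t)) k‖ / len k := by
          rw [Finset.sum_add_distrib, Finset.sum_add_distrib]
      _ ≤ C₀ * Γ + C₀ * Real.sqrt (ν * Γ) + ε := by linarith
  · -- closeness in the sum norm for later times
    intro t ht A'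
    have hmM : Maj fun t => a t - U t := haM.sub hUM
    obtain ⟨s, hs1, hs2, hs3⟩ := Pool.Agent.Run7.h32.GD.good_time hdc1 (fun t _ => N1_nonneg _) hε
      (hd1 0 ε le_rfl hε.le)
    have hs0 : 0 ≤ s := (by positivity : (0 : ℝ) ≤ ε / 2).trans hs1
    have hsδ : δ ≤ s := hδ1.trans hs1
    have h1 : N0 (d s) ≤ κ := by
      refine (N0_le_N1 (hd0 s hs0) (hdM.l1 hs0) (hdM.sum wt_len hs0)).trans (hs3.trans ?_)
      rw [div_le_iff₀ hε, ← mul_div_assoc, div_le_iff₀ hν]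
      linarith
    have h2 : ∑ k ∈ B, ‖v s k‖ ≤ κ :=
      (sum_B_le A s).trans ((hvd s hsδ).trans
        ((mul_le_of_le_one_right hδ0.le (hexp1 s hs0)).trans hδ2))
    have h3 : N0 (U s - tr L (U s)) ≤ κ :=
      (hUsub s hs0).trans ((mul_le_mul_of_nonneg_left (hD s ⟨hs0, hs2⟩) hLi.le).trans hL5)
    have h4 : ∑' k, ‖a s k - U s k‖ ≤ 3 * κ := by
      refine Real.tsum_le_of_sum_le (fun k => norm_nonneg _) fun A'' => ?_
      have := hsum s hs0 A''
      linarith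
    have h5 := Pr ν hν a U haL hUL s hs0 MP (fun t hst A'' => ?_) t (hs2.trans ht) A'
    · refine h5.trans ?_
      calc Real.exp (C₂ * MP) * ∑' k, ‖a s k - U s k‖ ≤ Real.exp (C₂ * MP) * (3 * κ) :=
            mul_le_mul_of_nonneg_left h4 (Real.exp_pos _).le
        _ = ε * (Real.exp (C₂ * MP) * Real.exp (-(C₂ * MP))) := by rw [hκ]; ring
        _ = ε := by rw [← Real.exp_add, add_neg_cancel, Real.exp_zero, mul_one]
    · have i1 := ii hdc1 hs0 hst
      have i3 := ii hUL.contN1 hs0 hst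
      have i4 : IntervalIntegrable (fun r => Real.exp (-r)) volume s t :=
        (Real.continuous_exp.comp continuous_neg).intervalIntegrable _ _
      have hcv : ContinuousOn (fun r => (((∑ k ∈ A'', ‖a r k‖) ^ 2 + (∑ k ∈ A'', ‖U r k‖) ^ 2) / ν
          + ∑ k ∈ A'', len k * (‖a r k‖ + ‖U r k‖))) (Ici 0) := by
        refine ContinuousOn.add (ContinuousOn.div_const (ContinuousOn.add ?_ ?_) _) ?_
        · exact (continuousOn_finsetSum _ fun k _ => (hac k).norm).pow 2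
        · exact (continuousOn_finsetSum _ fun k _ => (hUc k).norm).pow 2
        · exact continuousOn_finsetSum _ fun k _ =>
            continuousOn_const.mul ((hac k).norm.add (hUc k).norm)
      have h6 : ∫ r in s..t, (((∑ k ∈ A'', ‖a r k‖) ^ 2 + (∑ k ∈ A'', ‖U r k‖) ^ 2) / ν
          + ∑ k ∈ A'', len k * (‖a r k‖ + ‖U r k‖))
          ≤ ∫ r in s..t, ((3 / ν + 1) * N1 (d r) + (3 / ν + 1) * Real.exp (-r)
            + (4 * M₀ / ν + 2) * N1 (U r)) := by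
        refine intervalIntegral.integral_mono_on hst (ii hcv hs0 hst)
          (((i1.const_mul _).add (i4.const_mul _)).add (i3.const_mul _)) fun r hr => ?_
        have hr0 : 0 ≤ r := hs0.trans hr.1
        have hrδ : δ ≤ r := hsδ.trans hr.1
        have n1 := N1_nonneg (d r)
        have n2 := N1_nonneg (U r)
        have n3 : ∑ k ∈ B, len k * ‖v r k‖ ≤ Real.exp (-r) :=
          (hvd r hrδ).trans (mul_le_of_le_one_left (Real.exp_pos _).le hδ4)
        have n4 : (∑ k ∈ B, ‖v r k‖) ^ 2 ≤ Real.exp (-r) := by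
          have m1 := (sum_B_le A r).trans n3
          have m2 : 0 ≤ ∑ k ∈ B, ‖v r k‖ := Finset.sum_nonneg fun k _ => norm_nonneg _
          have m3 := hexp1 r hr0
          nlinarith
        have p1 : ∑ k ∈ A'', ‖a r k‖ ≤ N0 (d r) + (∑ k ∈ B, ‖v r k‖) + N0 (U r) := by
          have q := hadle r hr0 (fun _ => 1) (fun _ => zero_le_one) A''
          simp only [one_mul] at q
          exact q.trans (add_le_add (add_le_add (sum_le_N0 (hdM.l1 hr0) A'') le_rfl)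
            (sum_le_N0 (hUM.l1 hr0) A''))
        have p2 := sq3 (Finset.sum_nonneg fun k _ => norm_nonneg _) p1
        have p3 : (∑ k ∈ A'', ‖U r k‖) ^ 2 ≤ M₀ * N1 (U r) :=
          (pow_le_pow_left₀ (Finset.sum_nonneg fun k _ => norm_nonneg _)
            (sum_le_N0 (hUM.l1 hr0) A'') 2).trans (hN0sq r hr0)
        have p4 := hN0sq r hr0
        have p5 : N0 (d r) ^ 2 ≤ N1 (d r) :=
          (hdsq r hr0).trans (mul_le_of_le_one_left n1 he4)
        have p6 : ∑ k ∈ A'', len k * (‖a r k‖ + ‖U r k‖)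
            ≤ N1 (d r) + Real.exp (-r) + 2 * N1 (U r) := by
          have q := hadle r hr0 len len_nonneg A''
          have q1 : ∑ k ∈ A'', len k * ‖d r k‖ ≤ N1 (d r) :=
            sum_le_W wt_len (hdM.sum wt_len hr0) A''
          have q2 : ∑ k ∈ A'', len k * ‖U r k‖ ≤ N1 (U r) :=
            sum_le_W wt_len (hUM.sum wt_len hr0) A''
          simp only [mul_add, Finset.sum_add_distrib]
          linarith
        have p7 : ((∑ k ∈ A'', ‖a r k‖) ^ 2 + (∑ k ∈ A'', ‖U r k‖) ^ 2) / ν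
            ≤ (3 * N1 (d r) + 3 * Real.exp (-r) + 4 * (M₀ * N1 (U r))) / ν :=
          div_le_div_of_nonneg_right (by linarith) hν.le
        calc _ ≤ (3 * N1 (d r) + 3 * Real.exp (-r) + 4 * (M₀ * N1 (U r))) / ν
              + (N1 (d r) + Real.exp (-r) + 2 * N1 (U r)) := add_le_add p7 p6
          _ = _ := by
            field_simp
            ring
      rw [intervalIntegral.integral_add ((i1.const_mul _).add (i4.const_mul _)) (i3.const_mul _),
        intervalIntegral.integral_add (i1.const_mul _) (i4.const_mul _),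
        intervalIntegral.integral_const_mul, intervalIntegral.integral_const_mul,
        intervalIntegral.integral_const_mul] at h6
      have h7 : (3 / ν + 1) * (∫ r in s..t, N1 (d r)) ≤ (3 / ν + 1) * 1 :=
        mul_le_mul_of_nonneg_left ((hd1 s t hs0 hst).trans he6) (by positivity)
      have h8 : (3 / ν + 1) * (∫ r in s..t, Real.exp (-r)) ≤ (3 / ν + 1) * 1 :=
        mul_le_mul_of_nonneg_left (int_exp_neg_le hs0) (by positivity)
      have h9 : (4 * M₀ / ν + 2) * (∫ r in s..t, N1 (U r)) ≤ (4 * M₀ / ν + 2) * M₁ :=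
        mul_le_mul_of_nonneg_left (hN1U s t hs0 hst) (by positivity)
      have e : (3 / ν + 1) * 1 + (3 / ν + 1) * 1 + (4 * M₀ / ν + 2) * M₁ = MP := by
        rw [hMP]
        field_simp
        ring
      linarith

end Pool.Agent.Run7.h308.GS
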