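import Pool.Agent.Run7.h969.GG.Defs

/-!
Piece Q5: finitely many steps bounded in the sum norm of order `-1`, then one step with waves of
universal size.
-/

set_option autoImplicit false

open MeasureTheory Set Filter Topology
open scoped ContDiff

namespace Pool.Agent.Run7.h308.GS

open H459R3.NS Pool.Agent.Run7.h782.GD Pool.Agent.Run7.h782.GS
open Pool.Agent.Run7 Pool.Agent.Run7.h969.GG

/-- What the universal step asserts for one datum, with a bound `b` of the integral. -/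
def Goal (ν b : ℝ) (U : ℝ → Cf) (z : Cf) : Prop := ∀ ε : ℝ, 0 < ε → ∀ R : ℝ,
  ∃ (B : Finset K3) (w : Cf) (h : ℝ → ℝ) (a : ℝ → Cf), CSol ν a ∧ Tg ν a ∧
    (∀ k, a 0 k = z k + w k) ∧ (∀ k ∉ B, w k = 0) ∧ (∀ k, len k ≤ R → w k = 0) ∧
    Continuous h ∧ (∀ s, 0 < s → h s ≤ ε / Real.sqrt s) ∧
    (∀ T, 0 ≤ T → ∫ s in (0 : ℝ)..T, h s ^ 2 ≤ b) ∧
    (∀ s, 0 ≤ s → ∑ k ∈ B, ht s k * ‖w k‖ ≤ h s) ∧
    ∀ t, ε ≤ t → ∀ A : Finset K3, ∑ k ∈ A, ‖a t k - U t k‖ ≤ ε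

/-- **Piece Q5.** -/
theorem stepU (hX : StmStepX) (hS : StmStep) : StmStepU := by
  obtain ⟨c, hc, HX⟩ := hX
  obtain ⟨c', hc', HS⟩ := hS
  -- the last step
  have base : ∀ ν : ℝ, 0 < ν → ∀ (Z : Finset K3) (z : Cf), (0 : K3) ∉ Z → (∀ k ∉ Z, z k = 0) →
      Herm z → Dv z → ∀ U : ℝ → Cf, Tg ν U →
      Goal ν (c' * ν * ∑' k, ‖z k - U 0 k‖ / len k) U z := by
    intro ν hν Z z h1 h2 h3 h4 U hU ε hε R
    obtain ⟨B, w, h, a, q1, q2, q3, q4, q5, q6, q7, q8, q9, -, -, q10⟩ :=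
      HS ν hν U hU Z z h1 h2 h3 h4 ε hε R
    exact ⟨B, w, h, a, q1, q2, q3, q4, q5, q6, q7, q8, q9, q10⟩
  -- the iteration
  have iter : ∀ ν : ℝ, 0 < ν → ∀ (Z : Finset K3) (z : Cf), (0 : K3) ∉ Z →
      (∀ k ∉ Z, z k = 0) → Herm z → Dv z → ∀ n : ℕ, ∀ U : ℝ → Cf, Tg ν U →
      ∑' k, ‖z k - U 0 k‖ / len k ≤ c ^ 2 * ν * 2 ^ 2 ^ n →
      Goal ν (c' * ν * (c ^ 2 * ν * 2)) U z := by
    intro ν hν Z z h1 h2 h3 h4 n
    induction n with
    | zero =>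
      intro U hU hΓ ε hε R
      obtain ⟨B, w, h, a, q1, q2, q3, q4, q5, q6, q7, q8, q9, q10⟩ :=
        base ν hν Z z h1 h2 h3 h4 U hU ε hε R
      refine ⟨B, w, h, a, q1, q2, q3, q4, q5, q6, q7, fun T hT => (q8 T hT).trans ?_, q9, q10⟩
      have : c ^ 2 * ν * 2 ^ 2 ^ 0 = c ^ 2 * ν * 2 := by norm_num
      rw [this] at hΓ
      exact mul_le_mul_of_nonneg_left hΓ (by positivity)
    | succ n ih =>
      intro U hU hΓ ε hε R
      obtain ⟨B, w, a, -, ha, q3, q4, q5, q6, -, q10⟩ :=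
        HX ν hν U hU Z z h1 h2 h3 h4 (ε / 2) (half_pos hε) R
      have hΓ' : ∑' k, ‖z k - a 0 k‖ / len k ≤ c ^ 2 * ν * 2 ^ 2 ^ n := by
        have e1 : ∀ k, ‖z k - a 0 k‖ / len k = ‖w k‖ / len k := fun k => by
          rw [q3, sub_add_cancel_left, norm_neg]
        rw [tsum_congr e1, tsum_eq_sum (s := B) fun k hk => by rw [q4 k hk, norm_zero, zero_div]]
        refine q6.trans ?_
        have e2 : ν * ∑' k, ‖z k - U 0 k‖ / len k ≤ (c * ν * 2 ^ 2 ^ n) ^ 2 := by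
          refine (mul_le_mul_of_nonneg_left hΓ hν.le).trans (le_of_eq ?_)
          rw [mul_pow, mul_pow, ← pow_mul, ← pow_succ]
          ring
        calc c * Real.sqrt (ν * ∑' k, ‖z k - U 0 k‖ / len k)
            ≤ c * Real.sqrt ((c * ν * 2 ^ 2 ^ n) ^ 2) :=
              mul_le_mul_of_nonneg_left (Real.sqrt_le_sqrt e2) hc.le
          _ = c * (c * ν * 2 ^ 2 ^ n) := by rw [Real.sqrt_sq (by positivity)]
          _ = c ^ 2 * ν * 2 ^ 2 ^ n := by ring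
      obtain ⟨B', w', h, a', r1, r2, r3, r4, r5, r6, r7, r8, r9, r10⟩ :=
        ih a ha hΓ' (ε / 2) (half_pos hε) R
      refine ⟨B', w', h, a', r1, r2, r3, r4, r5, r6, fun s hs => (r7 s hs).trans ?_, r8, r9,
        fun t ht A => ?_⟩
      · exact div_le_div_of_nonneg_right (by linarith) (Real.sqrt_nonneg _)
      · have e1 := r10 t (by linarith) A
        have e2 := q10 t (by linarith) A
        calc ∑ k ∈ A, ‖a' t k - U t k‖ ≤ ∑ k ∈ A, (‖a' t k - a t k‖ + ‖a t k - U t k‖) :=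
              Finset.sum_le_sum fun k _ => norm_sub_le_norm_sub_add_norm_sub _ _ _
          _ ≤ ε := by rw [Finset.sum_add_distrib]; linarith
  refine ⟨c' + c' * (c ^ 2 * 2), by positivity, ?_⟩
  intro ν hν U hU Z z h1 h2 h3 h4 ε hε R
  have hΓ0 : 0 ≤ ∑' k, ‖z k - U 0 k‖ / len k :=
    tsum_nonneg fun k => div_nonneg (norm_nonneg _) (Real.sqrt_nonneg _)
  rcases le_total (∑' k, ‖z k - U 0 k‖ / len k) ν with hle | hle
  · obtain ⟨B, w, h, a, q1, q2, q3, q4, q5, q6, q7, q8, q9, q10⟩ :=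
      base ν hν Z z h1 h2 h3 h4 U hU ε hε R
    refine ⟨B, w, h, a, q1, q2, q3, q4, q5, q6, q7, fun T hT => (q8 T hT).trans ?_, q9, q10⟩
    rw [min_eq_right hle]
    refine mul_le_mul_of_nonneg_right (mul_le_mul_of_nonneg_right ?_ hν.le) hΓ0
    have : 0 ≤ c' * (c ^ 2 * 2) := by positivity
    linarith
  · obtain ⟨n, hn⟩ : ∃ n : ℕ, ∑' k, ‖z k - U 0 k‖ / len k ≤ c ^ 2 * ν * 2 ^ 2 ^ n := by
      obtain ⟨N, hN⟩ := pow_unbounded_of_one_lt
        ((∑' k, ‖z k - U 0 k‖ / len k) / (c ^ 2 * ν)) (one_lt_two)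
      refine ⟨N, ?_⟩
      rw [div_lt_iff₀' (by positivity)] at hN
      refine hN.le.trans (mul_le_mul_of_nonneg_left ?_ (by positivity))
      exact pow_le_pow_right₀ one_le_two (Nat.lt_two_pow_self).le
    obtain ⟨B, w, h, a, q1, q2, q3, q4, q5, q6, q7, q8, q9, q10⟩ :=
      iter ν hν Z z h1 h2 h3 h4 n U hU hn ε hε R
    refine ⟨B, w, h, a, q1, q2, q3, q4, q5, q6, q7, fun T hT => (q8 T hT).trans ?_, q9, q10⟩
    rw [min_eq_left hle]
    have : 0 ≤ c' * ν * ν := by positivity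
    nlinarith

end Pool.Agent.Run7.h308.GS
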