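import Pool.Agent.Run7.h969.GG.Defs
import Pool.Agent.Run7.h308.GS.P10

/-!
Piece Q6: steering with waves of universal size, in physical space.
-/

set_option autoImplicit false

open MeasureTheory Set Filter Topology
open scoped ContDiff

namespace Pool.Agent.Run7.h308.GS

open H459R3.NS Pool.Agent.Run7.h782.GD Pool.Agent.Run7.h782.GS Pool.Agent.Run7.h32.GD
open Pool.Agent.Run7 Pool.Agent.Run7.h969.GG

/-- **Piece Q6.** -/
theorem gap (hStep : StmStepU) (hTg : StmTg) (hP : StmPhys) : StmGap := by
  classical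
  obtain ⟨C₀, hC₀, H⟩ := hStep
  refine ⟨4 * C₀ + 2, by positivity, ?_⟩
  intro ν hν u₀ hu0 hper hdiv U P hU hmean δ hδ R
  have hsp : ∀ i, SP (fun x => u₀ x i) := fun i =>
    ⟨contDiff_pi.1 hu0 i, fun j x => congrFun (hper j x) i⟩
  have hspU : ∀ i, SP (fun x => U 0 x i) := fun i =>
    (hU 1).sp ⟨le_rfl, one_pos⟩ i
  have hfrs : ∀ i, Summable (fr (fun x => u₀ x i)) := fun i => (rap_fr (hsp i)).summable
  set A : K3 → ℝ := fun k => ‖vf u₀ k‖ with hA
  have hA0 : ∀ k, 0 ≤ A k := fun k => norm_nonneg _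
  have hAs : Summable A := vf_summable hsp
  set m : V := fun i => ∫ y in cube, u₀ y i with hm'
  have hm0 : ∀ i, fr (fun x => u₀ x i) 0 = ((m i : ℝ) : ℂ) := fun i => fr_zero_eq _
  have hmU : ∀ i, fr (fun x => U 0 x i) 0 = ((m i : ℝ) : ℂ) := fun i => by
    rw [fr_zero_eq, hmean i]
  -- the difference of the data
  set D : K3 → ℝ := fun k => ‖vf u₀ k - vf (U 0) k‖ with hD
  have hD0 : ∀ k, 0 ≤ D k := fun k => norm_nonneg _
  have hDs : Summable D := by
    refine Summable.of_nonneg_of_le hD0 (fun k => norm_sub_le _ _) (hAs.add (vf_summable hspU))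
  have hDl := div_len_summable hDs hD0
  have hSg0 : 0 ≤ ∑' k, D k / len k := tsum_nonneg fun k => div_nonneg (hD0 k) (h782.GD.len_nonneg k)
  have hD00 : D 0 = 0 := by
    rw [hD]
    dsimp only
    have : vf u₀ 0 = vf (U 0) 0 := by
      funext i
      show fr _ 0 = fr _ 0
      rw [hm0, hmU]
    rw [this, sub_self, norm_zero]
  rcases hSg0.eq_or_lt with hSg | hSg
  · -- equal data
    have hDz : ∀ k, D k = 0 := by
      intro k
      by_cases hk : k = 0
      · rw [hk]; exact hD00
      · have h1 := (hasSum_zero_iff_of_nonneg (fun k => div_nonneg (hD0 k) (h782.GD.len_nonneg k))).1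
          (by
            have := hDl.hasSum
            rwa [← hSg] at this)
        have h2 := congrFun h1 k
        have h3 : D k / len k = 0 := h2
        rcases div_eq_zero_iff.1 h3 with h4 | h4
        · exact h4
        · exact absurd h4 (len_pos hk).ne'
    have hvf : ∀ k, vf (U 0) k = vf u₀ k := by
      intro k
      have h1 : ‖vf u₀ k - vf (U 0) k‖ = 0 := hDz k
      exact (sub_eq_zero.1 (norm_eq_zero.1 h1)).symm
    refine ⟨U, P, hU, fun k _ => hvf k, ⟨fun _ => 0, fun t ht => ⟨fun x i => ?_, ?_⟩, ?_, ?_⟩,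
      fun t _ x i => ?_⟩
    · have h1 : ∀ k, fr (fun y => U 0 y i - u₀ y i) k = 0 := by
        intro k
        rw [fr_sub (hspU i).smooth.continuous (hsp i).smooth.continuous]
        have := congrFun (hvf k) i
        have h2 : fr (fun x => U 0 x i) k = fr (fun x => u₀ x i) k := this
        rw [h2, sub_self]
      unfold heat
      simp only [h1, mul_zero, zero_mul, tsum_zero, Complex.zero_re, abs_zero]
      exact le_rfl
    · exact div_nonneg hδ.le (Real.sqrt_nonneg _)
    · simp
    · have : (∑' k, ‖vf u₀ k - vf (U 0) k‖ / len k) = ∑' k, D k / len k := rfl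
      rw [this, ← hSg, min_eq_right hν.le]
      simp
    · rw [sub_self, abs_zero]; exact hδ.le
  -- the tail
  obtain ⟨L, hRL, hL⟩ := tail hAs hA0 (max R 0)
    (ε := min (min (δ / 2) ν) (∑' k, D k / len k)) (by positivity)
  have hRL' : R ≤ L := (le_max_left _ _).trans hRL
  have hL0 : 0 ≤ L := (le_max_right _ _).trans hRL
  set tA : K3 → ℝ := fun k => if len k ≤ L then 0 else A k with htA
  have htA0 : ∀ k, 0 ≤ tA k := fun k => by rw [htA]; dsimp only; split_ifs <;> simp [hA0]
  have htAle : ∀ k, tA k ≤ A k := fun k => by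
    rw [htA]; dsimp only; split_ifs
    · exact hA0 k
    · exact le_rfl
  have htAs : Summable tA := Summable.of_nonneg_of_le htA0 htAle hAs
  have htAz : tA 0 = 0 := by
    rw [htA]; dsimp only; rw [if_pos]; rw [len_zero]; exact hL0
  set Z : Finset K3 := (finite_ball L).toFinset.erase 0 with hZ
  have hZmem : ∀ k, k ∈ Z ↔ k ≠ 0 ∧ len k ≤ L := fun k => by
    rw [hZ, Finset.mem_erase, Set.Finite.mem_toFinset, Set.mem_ofPred_eq]
  set z : Cf := fun k => if k ∈ Z then vf u₀ k else 0 with hz
  have hz0 : (0 : K3) ∉ Z := fun h => ((hZmem 0).1 h).1 rfl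
  have hzs : ∀ k ∉ Z, z k = 0 := fun k hk => by rw [hz]; dsimp only; rw [if_neg hk]
  have hzin : ∀ k ∈ Z, z k = vf u₀ k := fun k hk => by rw [hz]; dsimp only; rw [if_pos hk]
  have hzh : Herm z := by
    intro k i
    by_cases hk : k ∈ Z
    · have hk' : -k ∈ Z := by
        rw [hZmem] at hk ⊢
        exact ⟨neg_ne_zero.2 hk.1, by rw [len_neg]; exact hk.2⟩
      rw [hzin _ hk, hzin _ hk']
      exact fr_neg _ _
    · have hk' : -k ∉ Z := by
        intro h
        apply hk
        rw [hZmem] at h ⊢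
        exact ⟨neg_ne_zero.1 h.1, by rw [← len_neg]; exact h.2⟩
      rw [hzs _ hk, hzs _ hk']
      simp
  have hzd : Dv z := by
    intro k
    by_cases hk : k ∈ Z
    · rw [hzin _ hk]
      exact fr_div hsp hdiv k
    · rw [hzs _ hk, kd_zero_right]
  -- the target in the moving frame
  set W : ℝ → V → V := fun t x => -m + U t (x - t • (-m)) with hW
  have hWs : ∀ T, IsSol ν T W (fun t x => P t (x - t • (-m))) := fun T => galilei (hU T) (-m)
  have hW00 : ∀ i, (fun x => W 0 x i) = fun x => U 0 x i - m i := by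
    intro i
    funext x
    show -m i + U 0 (x - (0 : ℝ) • (-m)) i = _
    rw [zero_smul, sub_zero]
    ring
  have hWfr : ∀ k i, vf (W 0) k i = vf (U 0) k i - if k = 0 then ((m i : ℝ) : ℂ) else 0 := by
    intro k i
    show fr (fun x => W 0 x i) k = _
    rw [hW00, fr_sub (hspU i).smooth.continuous continuous_const, fr_const]
    rfl
  have hWmean : ∀ i, ∫ x in cube, W 0 x i = 0 := by
    intro i
    have h1 : ((∫ x in cube, W 0 x i : ℝ) : ℂ) = 0 := by
      rw [← fr_zero_eq]
      have h2 := hWfr 0 i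
      rw [if_pos rfl] at h2
      have h3 : vf (U 0) 0 i = ((m i : ℝ) : ℂ) := hmU i
      rw [h3, sub_self] at h2
      exact h2
    exact_mod_cast h1
  have hWne : ∀ k, k ≠ 0 → vf (W 0) k = vf (U 0) k := by
    intro k hk
    funext i
    rw [hWfr, if_neg hk, sub_zero]
  have htg : Tg ν (fun t => vf (W t)) := hTg ν hν W _ hWs hWmean
  obtain ⟨B, w, H₁, a, ha, -, hv0, hwB, hwR, hHc, hwh, hwi, hwH, hclose⟩ :=
    H ν hν (fun t => vf (W t)) htg Z z hz0 hzs hzh hzd (δ / 4) (by positivity) R
  have ha0 : ∀ k, a 0 k = z k + w k := hv0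
  have hsa : ∀ t, 0 ≤ t → ∀ i, Summable (cmp a i t) := fun t ht i => (dec_cmp ha i).summable ht
  -- the distance of the data in the critical norm
  have hzW : ∀ k, ‖z k - vf (W 0) k‖ / len k ≤ D k / len k + tA k := by
    intro k
    by_cases hk : k = 0
    · rw [hk, len_zero, div_zero, div_zero, zero_add]; exact htA0 0
    · have hl := one_le_len hk
      have hlp := len_pos hk
      rw [hWne k hk]
      by_cases hkL : len k ≤ L
      · rw [hzin k ((hZmem k).2 ⟨hk, hkL⟩)]
        exact le_add_of_nonneg_right (htA0 k)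
      · rw [hzs k (fun h => hkL ((hZmem k).1 h).2)]
        have h1 : ‖(0 : C3) - vf (U 0) k‖ ≤ D k + A k := by
          have : (0 : C3) - vf (U 0) k = (vf u₀ k - vf (U 0) k) - vf u₀ k := by abel
          rw [this]
          exact norm_sub_le _ _
        have h2 : tA k = A k := by rw [htA]; dsimp only; rw [if_neg hkL]
        calc ‖(0 : C3) - vf (U 0) k‖ / len k ≤ (D k + A k) / len k :=
              div_le_div_of_nonneg_right h1 hlp.le
          _ = D k / len k + A k / len k := add_div _ _ _
          _ ≤ D k / len k + tA k := by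
              rw [h2]
              have := div_le_self (hA0 k) hl
              linarith
  have hdist : ∑' k, ‖z k - vf (W 0) k‖ / len k ≤ 2 * ∑' k, D k / len k := by
    have h1 : Summable fun k => D k / len k + tA k := hDl.add htAs
    have h2 : ∑' k, ‖z k - vf (W 0) k‖ / len k ≤ ∑' k, (D k / len k + tA k) :=
      Summable.tsum_le_tsum hzW (Summable.of_nonneg_of_le
        (fun k => div_nonneg (norm_nonneg _) (h782.GD.len_nonneg k)) hzW h1) h1
    rw [hDl.tsum_add htAs] at h2
    have h3 : ∑' k, tA k ≤ ∑' k, D k / len k := hL.trans (min_le_right _ _)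
    linarith
  -- the solution
  obtain ⟨p, hp⟩ := hP ν a ha
  have hu0i : ∀ i x, (m + fld a 0 (x - (0 : ℝ) • m)) i
      = (S (fun k => (if k = 0 then ((m i : ℝ) : ℂ) else 0) + cmp a i 0 k) x).re := by
    intro i x
    rw [zero_smul, sub_zero, S_add (b := fun k => if k = 0 then ((m i : ℝ) : ℂ) else 0) _
      (hsa 0 le_rfl i), S_single, Complex.add_re, Complex.ofReal_re]
    · rfl
    · exact summable_of_hasFiniteSupport ((Set.finite_singleton (0 : K3)).subset fun k hk => by
        by_contra h
        exact hk (if_neg h))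
  have hcs : ∀ i, Summable (fun k => (if k = 0 then ((m i : ℝ) : ℂ) else 0) + cmp a i 0 k) := by
    intro i
    refine Summable.add ?_ (hsa 0 le_rfl i)
    exact summable_of_hasFiniteSupport ((Set.finite_singleton (0 : K3)).subset fun k hk => by
        by_contra h
        exact hk (if_neg h))
  have hch : ∀ i k, (fun k => (if k = 0 then ((m i : ℝ) : ℂ) else 0) + cmp a i 0 k) (-k)
      = (starRingEnd ℂ) ((fun k => (if k = 0 then ((m i : ℝ) : ℂ) else 0) + cmp a i 0 k) k) := by
    intro i k
    dsimp only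
    rw [map_add]
    congr 1
    · by_cases hk : k = 0
      · rw [if_pos hk, if_pos (neg_eq_zero.2 hk), Complex.conj_ofReal]
      · rw [if_neg hk, if_neg (fun h => hk (neg_eq_zero.1 h)), map_zero]
    · exact ha.herm 0 le_rfl k i
  have hfru : ∀ i k, fr (fun x => (m + fld a 0 (x - (0 : ℝ) • m)) i) k
      = (if k = 0 then ((m i : ℝ) : ℂ) else 0) + a 0 k i := by
    intro i k
    have : (fun x => (m + fld a 0 (x - (0 : ℝ) • m)) i) = fun x =>
      (S (fun k => (if k = 0 then ((m i : ℝ) : ℂ) else 0) + cmp a i 0 k) x).re :=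
      funext (hu0i i)
    rw [this, fr_S (hcs i) (hch i)]
    rfl
  have hcont0 : ∀ i, Continuous fun x => (m + fld a 0 (x - (0 : ℝ) • m)) i := by
    intro i
    have : (fun x => (m + fld a 0 (x - (0 : ℝ) • m)) i) = fun x =>
      (S (fun k => (if k = 0 then ((m i : ℝ) : ℂ) else 0) + cmp a i 0 k) x).re :=
      funext (hu0i i)
    rw [this]
    exact Complex.continuous_re.comp (S_continuous (hcs i))
  have hd : ∀ i k, ‖fr (fun x => (m + fld a 0 (x - (0 : ℝ) • m)) i - u₀ x i) k‖
      ≤ ‖w k‖ + tA k := by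
    intro i k
    rw [fr_sub (hcont0 i) (hsp i).smooth.continuous, hfru]
    by_cases hk : k = 0
    · rw [hk, if_pos rfl, ha.zero 0 le_rfl, hm0, Pi.zero_apply, add_zero, sub_self, norm_zero]
      exact add_nonneg (norm_nonneg _) (htA0 _)
    · rw [if_neg hk, zero_add, ha0]
      by_cases hkL : len k ≤ L
      · rw [hzin k ((hZmem k).2 ⟨hk, hkL⟩)]
        have : (vf u₀ k + w k) i - fr (fun x => u₀ x i) k = w k i := by
          rw [Pi.add_apply]; show fr _ k + _ - _ = _; ring
        rw [this]
        exact (norm_le_pi_norm _ i).trans (le_add_of_nonneg_right (htA0 k))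
      · rw [hzs k (fun h => hkL ((hZmem k).1 h).2)]
        have : ((0 : C3) + w k) i - fr (fun x => u₀ x i) k = w k i - vf u₀ k i := by
          rw [zero_add]; rfl
        rw [this]
        refine (norm_sub_le _ _).trans (add_le_add (norm_le_pi_norm _ i) ?_)
        rw [htA]; dsimp only; rw [if_neg hkL]
        exact norm_le_pi_norm _ i
  have hws : Summable fun k => ‖w k‖ := summable_of_ne_finset_zero (s := B) fun k hk => by
    rw [hwB k hk, norm_zero]
  set G : ℝ → ℝ := fun t => ∑' k, hm t k * tA k with hG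
  have hG0 : ∀ t, 0 ≤ G t := fun t => tsum_nonneg fun k => mul_nonneg (hm_pos _ _).le (htA0 k)
  have hH0 : ∀ t, 0 ≤ t → 0 ≤ H₁ t := fun t ht => (Finset.sum_nonneg fun k _ =>
    mul_nonneg (hm_pos t k).le (norm_nonneg _)).trans (hwH t ht)
  have hGs : ∀ t, 0 ≤ t → Summable fun k => hm t k * tA k := fun t ht =>
    Summable.of_nonneg_of_le (fun k => mul_nonneg (hm_pos _ _).le (htA0 k))
      (fun k => mul_le_of_le_one_left (htA0 k) (hm_le_one ht k)) htAs
  have hheat : ∀ t, 0 < t → ∀ x i,
      |heat t (fun y => (m + fld a 0 (y - (0 : ℝ) • m)) i - u₀ y i) x| ≤ H₁ t + G t := by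
    intro t ht x i
    have hs : Summable fun k => ‖fr (fun x => (m + fld a 0 (x - (0 : ℝ) • m)) i - u₀ x i) k‖ :=
      Summable.of_nonneg_of_le (fun _ => norm_nonneg _) (hd i) (hws.add htAs)
    refine (heat_bd hs ht.le x).trans ?_
    have hsw : Summable fun k => hm t k * ‖w k‖ :=
      summable_of_ne_finset_zero (s := B) fun k hk => by rw [hwB k hk, norm_zero, mul_zero]
    have e : ∑' k, hm t k * ‖w k‖ ≤ H₁ t := by
      rw [tsum_eq_sum (s := B) fun k hk => by rw [hwB k hk, norm_zero, mul_zero]]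
      exact hwH t ht.le
    refine le_trans ?_ (add_le_add_left e (G t))
    rw [hG]
    dsimp only
    rw [← hsw.tsum_add (hGs t ht.le)]
    refine Summable.tsum_le_tsum (fun k => ?_) ?_ (hsw.add (hGs t ht.le))
    · rw [← mul_add]
      exact mul_le_mul_of_nonneg_left (hd i k) (hm_pos _ _).le
    · exact Summable.of_nonneg_of_le (fun k => mul_nonneg (hm_pos _ _).le (norm_nonneg _))
        (fun k => mul_le_of_le_one_left (norm_nonneg _) (hm_le_one ht.le k)) hs
  have htail : ∑' k, tA k ≤ min (δ / 2) ν := hL.trans (min_le_left _ _)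
  have hGsq : ∀ t, 0 < t → G t ≤ (δ / 2) / Real.sqrt t := by
    intro t ht
    have : G t ≤ ∑' k, 1 / Real.sqrt t * tA k := by
      refine Summable.tsum_le_tsum (fun k => ?_) (hGs t ht.le) (htAs.mul_left _)
      by_cases hk : k = 0
      · rw [hk, htAz]; simp
      · exact mul_le_mul_of_nonneg_right (hm_le ht hk) (htA0 k)
    refine this.trans ?_
    rw [tsum_mul_left, one_div, ← div_eq_inv_mul]
    exact div_le_div_of_nonneg_right (htail.trans (min_le_left _ _)) (Real.sqrt_nonneg _)
  have hGν : ∀ t, 0 ≤ t → G t ≤ ν := by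
    intro t ht
    refine (Summable.tsum_le_tsum (fun k => ?_) (hGs t ht) htAs).trans
      (htail.trans (min_le_right _ _))
    exact mul_le_of_le_one_left (htA0 k) (hm_le_one ht k)
  obtain ⟨hGi, hGi2⟩ := int_heat htAs htA0 htAz
  have hheat2 : ∀ t, 0 < t → ∀ x i,
      |heat t (fun y => (m + fld a 0 (y - (0 : ℝ) • m)) i - u₀ y i) x| ≤ δ / Real.sqrt t := by
    intro t ht x i
    refine (hheat t ht x i).trans ?_
    have e1 : H₁ t ≤ (δ / 4) / Real.sqrt t := hwh t ht
    have e2 := hGsq t ht
    have e4 : (δ / 4) / Real.sqrt t + (δ / 2) / Real.sqrt t ≤ δ / Real.sqrt t := by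
      rw [← add_div]
      exact div_le_div_of_nonneg_right (by linarith) (Real.sqrt_nonneg _)
    linarith
  refine ⟨fun t x => m + fld a t (x - t • m), fun t x => p t (x - t • m),
    fun T => galilei (hp T) m, ?_, ?_, ?_⟩
  · intro k hk
    funext i
    show fr (fun x => (m + fld a 0 (x - (0 : ℝ) • m)) i) k = fr (fun x => u₀ x i) k
    rw [hfru]
    by_cases hk0 : k = 0
    · rw [hk0, if_pos rfl, ha.zero 0 le_rfl, hm0, Pi.zero_apply, add_zero]
    · rw [if_neg hk0, zero_add, ha0, hwR k hk, add_zero,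
        hzin k ((hZmem k).2 ⟨hk0, hk.trans hRL'⟩)]
      rfl
  · have hsq : ∀ t, (Real.sqrt (2 * H₁ t ^ 2 + 2 * ν * G t)) ^ 2
        = 2 * H₁ t ^ 2 + 2 * ν * G t := fun t =>
      Real.sq_sqrt (by have := hG0 t; positivity)
    have hHi : IntegrableOn (fun t => H₁ t ^ 2) (Ioi 0) := by
      refine integrableOn_Ioi_of_intervalIntegral_norm_bounded
        (C₀ * ν * min ν (∑' k, ‖z k - vf (W 0) k‖ / len k)) 0 (fun i : ℝ => ?_) tendsto_id ?_
      · exact (Continuous.integrableOn_Icc (by fun_prop)).mono_set Ioc_subset_Icc_self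
      · filter_upwards [eventually_ge_atTop 0] with T hT
        refine le_trans (le_of_eq ?_) (hwi T hT)
        refine intervalIntegral.integral_congr fun t _ => ?_
        show ‖H₁ t ^ 2‖ = _
        rw [Real.norm_of_nonneg (by positivity)]
    have hHle : ∫ t in Ioi (0 : ℝ), H₁ t ^ 2
        ≤ C₀ * ν * min ν (∑' k, ‖z k - vf (W 0) k‖ / len k) := by
      refine le_of_tendsto (intervalIntegral_tendsto_integral_Ioi 0 hHi tendsto_id) ?_
      filter_upwards [eventually_ge_atTop 0] with T hT
      exact hwi T hT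
    have hint1 : IntegrableOn (fun t => 2 * H₁ t ^ 2 + 2 * ν * G t) (Ioi 0) :=
      (hHi.const_mul 2).add (hGi.const_mul (2 * ν))
    set h : ℝ → ℝ := fun t => min (Real.sqrt (2 * H₁ t ^ 2 + 2 * ν * G t)) (δ / Real.sqrt t)
      with hh
    have hh0 : ∀ t, 0 ≤ h t := fun t => le_min (Real.sqrt_nonneg _)
      (div_nonneg hδ.le (Real.sqrt_nonneg _))
    have hhle : ∀ t, h t ^ 2 ≤ 2 * H₁ t ^ 2 + 2 * ν * G t := fun t => by
      rw [← hsq t]
      exact pow_le_pow_left₀ (hh0 t) (min_le_left _ _) 2
    have hmeas : AEStronglyMeasurable (fun t => h t ^ 2) (volume.restrict (Ioi 0)) := by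
      refine AEStronglyMeasurable.pow ?_ 2
      refine AEStronglyMeasurable.inf ?_ ?_
      · exact Real.continuous_sqrt.comp_aestronglyMeasurable hint1.aestronglyMeasurable
      · exact (Measurable.aestronglyMeasurable (by fun_prop))
    have hint2 : IntegrableOn (fun t => h t ^ 2) (Ioi 0) := by
      refine Integrable.mono' hint1 hmeas (ae_of_all _ fun t => ?_)
      rw [Real.norm_of_nonneg (by positivity)]
      exact hhle t
    refine ⟨h, fun t ht => ⟨fun x i => ?_, min_le_right _ _⟩, hint2, ?_⟩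
    · refine le_min ((hheat t ht x i).trans ?_) (hheat2 t ht x i)
      apply Real.le_sqrt_of_sq_le
      have e1 := hGν t ht.le
      have e2 := hG0 t
      nlinarith [sq_nonneg (H₁ t - G t), mul_le_mul_of_nonneg_left e1 e2, hH0 t ht.le]
    · refine (integral_mono hint2 hint1 hhle).trans ?_
      rw [integral_add (hHi.const_mul 2) (hGi.const_mul (2 * ν)), integral_const_mul,
        integral_const_mul]
      set M : ℝ := min ν (∑' k, D k / len k) with hM
      have hM0 : 0 ≤ M := le_min hν.le hSg0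
      have f2 : ∑' k, tA k / len k ≤ M := by
        refine (Summable.tsum_le_tsum (fun k => ?_) (div_len_summable htAs htA0) htAs).trans
          (le_min (htail.trans (min_le_right _ _)) (hL.trans (min_le_right _ _)))
        by_cases hk : k = 0
        · rw [hk, len_zero, div_zero]; exact htA0 0
        · exact div_le_self (htA0 k) (one_le_len hk)
      have f0 : min ν (∑' k, ‖z k - vf (W 0) k‖ / len k) ≤ 2 * M := by
        rw [hM, mul_min_of_nonneg _ _ (by norm_num : (0 : ℝ) ≤ 2)]
        exact min_le_min (by linarith) hdist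
      have f3 : 2 * ∫ t in Ioi (0 : ℝ), H₁ t ^ 2 ≤ 2 * (C₀ * ν * (2 * M)) := by
        have := mul_le_mul_of_nonneg_left f0 (by positivity : 0 ≤ C₀ * ν)
        linarith
      have f4 : 2 * ν * ∫ t in Ioi (0 : ℝ), G t ≤ 2 * ν * M :=
        mul_le_mul_of_nonneg_left (hGi2.trans f2) (by positivity)
      calc _ ≤ 2 * (C₀ * ν * (2 * M)) + 2 * ν * M := add_le_add f3 f4
        _ = (4 * C₀ + 2) * ν * M := by ring
  · intro t ht x i
    have ht0 : 0 ≤ t := hδ.le.trans ht
    have hspW : ∀ i, SP (fun y => W t y i) := fun i =>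
      (hWs (t + 1)).sp ⟨ht0, by linarith⟩ i
    have hsW : ∀ i, Summable (fr (fun y => W t y i)) := fun i => (rap_fr (hspW i)).summable
    have hUW : U t x i = m i + W t (x - t • m) i := by
      show _ = m i + (-m i + U t (x - t • m - t • (-m)) i)
      have : x - t • m - t • (-m) = x := by
        rw [smul_neg]
        abel
      rw [this]
      ring
    have e : (m + fld a t (x - t • m)) i - U t x i
        = (S (fun k => cmp a i t k - fr (fun y => W t y i) k) (x - t • m)).re := by
      rw [← S_sub (hsa t ht0 i) (hsW i), Complex.sub_re, S_fr (hspW i), Complex.ofReal_re, hUW,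
        Pi.add_apply]
      show m i + (S (cmp a i t) (x - t • m)).re - (m i + W t (x - t • m) i) = _
      ring
    show |(m + fld a t (x - t • m)) i - U t x i| ≤ δ
    rw [e]
    have hcl := hclose t (by linarith)
    have hs1 : Summable fun k => ‖a t k - vf (W t) k‖ :=
      summable_of_sum_le (fun _ => norm_nonneg _) hcl
    have hs2 : Summable fun k => cmp a i t k - fr (fun y => W t y i) k := (hsa t ht0 i).sub (hsW i)
    refine (Complex.abs_re_le_norm _).trans ((norm_S_le hs2 _).trans ?_)
    refine (Summable.tsum_le_tsum (fun k => ?_) hs2.norm hs1).trans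
      ((Real.tsum_le_of_sum_le (fun _ => norm_nonneg _) hcl).trans (by linarith))
    exact norm_le_pi_norm (a t k - vf (W t) k) i

end Pool.Agent.Run7.h308.GS
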